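import Pool.Agent.Q260.KK.Spec

/-! Project KK (helper260), job CONV: convergence of the heat transforms. -/

set_option autoImplicit false

open MeasureTheory Filter Topology Set Complex

namespace Pool.Agent.Q63.KK

theorem i0 : Integrable (fun y : ℝ => Real.exp (-(y ^ 2 / 4))) := by
  have := integrable_exp_neg_mul_sq (b := 1 / 4) (by norm_num)
  refine this.congr (Eventually.of_forall fun y => ?_)
  simp only
  congr 1; ring

theorem i1 : Integrable (fun y : ℝ => y * Real.exp (-(y ^ 2 / 4))) := by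
  have := integrable_mul_exp_neg_mul_sq (b := 1 / 4) (by norm_num)
  refine this.congr (Eventually.of_forall fun y => ?_)
  simp only
  congr 2; ring

theorem i2 : Integrable (fun y : ℝ => y ^ 2 * Real.exp (-(y ^ 2 / 4))) := by
  have := integrable_rpow_mul_exp_neg_mul_sq (b := 1 / 4) (by norm_num) (s := 2) (by norm_num)
  refine this.congr (Eventually.of_forall fun y => ?_)
  simp only [Real.rpow_two]
  congr 2; ring

theorem v0 : ∫ y : ℝ, Real.exp (-(y ^ 2 / 4)) = Real.sqrt (4 * Real.pi) := by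
  have := integral_gaussian (1 / 4)
  have e : ∫ y : ℝ, Real.exp (-(y ^ 2 / 4)) = ∫ y : ℝ, Real.exp (-(1 / 4) * y ^ 2) := by
    congr 1; funext y; congr 1; ring
  rw [e, this]; congr 1; field_simp

theorem tz (s : ℝ) : Tendsto (fun y : ℝ => |y| ^ s * Real.exp (-(y ^ 2 / 4))) (cocompact ℝ) (𝓝 0) := by
  have := tendsto_rpow_abs_mul_exp_neg_mul_sq_cocompact (a := 1 / 4) (by norm_num) s
  refine this.congr fun y => ?_
  congr 2; ring

theorem t0 : Tendsto (fun y : ℝ => Real.exp (-(y ^ 2 / 4))) (cocompact ℝ) (𝓝 0) := by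
  refine (tz 0).congr fun y => ?_
  rw [Real.rpow_zero, one_mul]

theorem t1 : Tendsto (fun y : ℝ => y * Real.exp (-(y ^ 2 / 4))) (cocompact ℝ) (𝓝 0) := by
  rw [tendsto_zero_iff_norm_tendsto_zero]
  refine (tz 1).congr fun y => ?_
  rw [Real.rpow_one, norm_mul, Real.norm_eq_abs, Real.norm_of_nonneg (Real.exp_pos _).le]

theorem dexp (y : ℝ) : HasDerivAt (fun y : ℝ => Real.exp (-(y ^ 2 / 4)))
    (Real.exp (-(y ^ 2 / 4)) * (-(y / 2))) y := by
  have h1 : HasDerivAt (fun y : ℝ => -(y ^ 2 / 4)) (-(y / 2)) y := by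
    have := ((hasDerivAt_pow 2 y).div_const 4).neg
    refine this.congr_deriv ?_
    norm_num; ring
  exact h1.exp

theorem v1 : ∫ y : ℝ, y * Real.exp (-(y ^ 2 / 4)) = 0 := by
  have h := integral_of_hasDerivAt_of_tendsto
    (f := fun y : ℝ => -2 * Real.exp (-(y ^ 2 / 4))) (f' := fun y => y * Real.exp (-(y ^ 2 / 4)))
    (m := 0) (n := 0) (fun y => ?_) i1 ?_ ?_
  · simpa using h
  · refine ((dexp y).const_mul (-2)).congr_deriv ?_
    ring
  · have := (t0.mono_left atBot_le_cocompact).const_mul (-2)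
    simpa using this
  · have := (t0.mono_left atTop_le_cocompact).const_mul (-2)
    simpa using this

theorem v2 : ∫ y : ℝ, y ^ 2 * Real.exp (-(y ^ 2 / 4)) = 2 * Real.sqrt (4 * Real.pi) := by
  have h := integral_of_hasDerivAt_of_tendsto
    (f := fun y : ℝ => -2 * (y * Real.exp (-(y ^ 2 / 4))))
    (f' := fun y => y ^ 2 * Real.exp (-(y ^ 2 / 4)) - 2 * Real.exp (-(y ^ 2 / 4)))
    (m := 0) (n := 0) (fun y => ?_) (i2.sub (i0.const_mul 2)) ?_ ?_
  · rw [integral_sub i2 (i0.const_mul 2), integral_const_mul, v0] at h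
    linarith
  · refine (((hasDerivAt_id y).mul (dexp y)).const_mul (-2)).congr_deriv ?_
    simp only [id]
    ring
  · have := (t1.mono_left atBot_le_cocompact).const_mul (-2)
    simpa using this
  · have := (t1.mono_left atTop_le_cocompact).const_mul (-2)
    simpa using this

/-- the heat transform of the quadratic polynomial -/
theorem quad (z : ℂ) :
    Integrable (fun y : ℝ => ((Real.exp (-(y ^ 2 / 4)) : ℝ) : ℂ) * (((z + y * I) ^ 2 + 4) / 4)) ∧
    ((1 / Real.sqrt (4 * Real.pi) : ℝ) : ℂ) *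
      ∫ y : ℝ, ((Real.exp (-(y ^ 2 / 4)) : ℝ) : ℂ) * (((z + y * I) ^ 2 + 4) / 4) =
    (z ^ 2 + 2) / 4 := by
  have j0 : Integrable (fun y : ℝ => ((Real.exp (-(y ^ 2 / 4)) : ℝ) : ℂ)) := i0.ofReal
  have j1 : Integrable (fun y : ℝ => ((y * Real.exp (-(y ^ 2 / 4)) : ℝ) : ℂ)) := i1.ofReal
  have j2 : Integrable (fun y : ℝ => ((y ^ 2 * Real.exp (-(y ^ 2 / 4)) : ℝ) : ℂ)) := i2.ofReal
  have e : (fun y : ℝ => ((Real.exp (-(y ^ 2 / 4)) : ℝ) : ℂ) * (((z + y * I) ^ 2 + 4) / 4)) =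
      fun y : ℝ => (z ^ 2 + 4) / 4 * ((Real.exp (-(y ^ 2 / 4)) : ℝ) : ℂ) +
        z * I / 2 * ((y * Real.exp (-(y ^ 2 / 4)) : ℝ) : ℂ) -
        1 / 4 * ((y ^ 2 * Real.exp (-(y ^ 2 / 4)) : ℝ) : ℂ) := by
    funext y
    rw [ofReal_mul, ofReal_mul, ofReal_pow]
    have hI : I ^ 2 = -1 := I_sq
    linear_combination ((Real.exp (-(y ^ 2 / 4)) : ℝ) : ℂ) * (y : ℂ) ^ 2 / 4 * hI
  have k1 : Integrable (fun y : ℝ => (z ^ 2 + 4) / 4 * ((Real.exp (-(y ^ 2 / 4)) : ℝ) : ℂ) +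
      z * I / 2 * ((y * Real.exp (-(y ^ 2 / 4)) : ℝ) : ℂ)) :=
    (j0.const_mul ((z ^ 2 + 4) / 4)).add (j1.const_mul (z * I / 2))
  have k2 : Integrable (fun y : ℝ => (z ^ 2 + 4) / 4 * ((Real.exp (-(y ^ 2 / 4)) : ℝ) : ℂ) +
      z * I / 2 * ((y * Real.exp (-(y ^ 2 / 4)) : ℝ) : ℂ) -
      1 / 4 * ((y ^ 2 * Real.exp (-(y ^ 2 / 4)) : ℝ) : ℂ)) := k1.sub (j2.const_mul (1 / 4))
  rw [e]
  refine ⟨k2, ?_⟩
  rw [integral_sub k1 (j2.const_mul (1 / 4)),
    integral_add (j0.const_mul ((z ^ 2 + 4) / 4)) (j1.const_mul (z * I / 2)),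
    integral_const_mul, integral_const_mul, integral_const_mul]
  have w0 : ∫ y : ℝ, ((Real.exp (-(y ^ 2 / 4)) : ℝ) : ℂ) = ((Real.sqrt (4 * Real.pi) : ℝ) : ℂ) := by
    rw [← v0]; exact integral_complex_ofReal
  have w1 : ∫ y : ℝ, ((y * Real.exp (-(y ^ 2 / 4)) : ℝ) : ℂ) = ((0 : ℝ) : ℂ) := by
    rw [← v1]; exact integral_complex_ofReal
  have w2 : ∫ y : ℝ, ((y ^ 2 * Real.exp (-(y ^ 2 / 4)) : ℝ) : ℂ) =
      ((2 * Real.sqrt (4 * Real.pi) : ℝ) : ℂ) := by
    rw [← v2]; exact integral_complex_ofReal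
  rw [w0, w1, w2]
  have hs : (0 : ℝ) < Real.sqrt (4 * Real.pi) := Real.sqrt_pos.2 (by positivity)
  have hs' : ((Real.sqrt (4 * Real.pi) : ℝ) : ℂ) ≠ 0 := by exact_mod_cast hs.ne'
  push_cast
  field_simp
  ring

/-- the error integrand -/
noncomputable def er (ε y : ℝ) : ℝ := Real.exp (-(y ^ 2 / 4)) * (((3 + |y|) ^ 2 + 4) / 4 *
  (Real.exp (ε * ((3 + |y|) + (3 + |y|) ^ 2)) - 1))

theorem er_nn (ε y : ℝ) (h : 0 ≤ ε) : 0 ≤ er ε y := by
  unfold er
  have : 1 ≤ Real.exp (ε * ((3 + |y|) + (3 + |y|) ^ 2)) := Real.one_le_exp (by positivity)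
  have h2 : 0 ≤ Real.exp (ε * ((3 + |y|) + (3 + |y|) ^ 2)) - 1 := by linarith
  positivity

theorem er_cont (ε : ℝ) : Continuous (er ε) := by
  unfold er; fun_prop

theorem er_bd (ε y : ℝ) (h : 0 ≤ ε) (h2 : ε ≤ 1 / 32) :
    er ε y ≤ 16 * Real.exp 2 * Real.exp (-(1 / 8) * y ^ 2) := by
  unfold er
  have hy := abs_nonneg y
  have hy2 : |y| ^ 2 = y ^ 2 := sq_abs y
  have a1 : ((3 + |y|) ^ 2 + 4) / 4 ≤ 16 * Real.exp (y ^ 2 / 16) := by
    have := Real.add_one_le_exp (y ^ 2 / 16)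
    nlinarith [sq_nonneg (|y| - 3)]
  have a2 : Real.exp (ε * ((3 + |y|) + (3 + |y|) ^ 2)) - 1 ≤ Real.exp (2 + y ^ 2 / 16) := by
    have h3 : ε * ((3 + |y|) + (3 + |y|) ^ 2) ≤ 2 + y ^ 2 / 16 := by
      have h4 : ε * ((3 + |y|) + (3 + |y|) ^ 2) ≤ 1 / 32 * ((3 + |y|) + (3 + |y|) ^ 2) :=
        mul_le_mul_of_nonneg_right h2 (by positivity)
      nlinarith [sq_nonneg (|y| - 4)]
    have := Real.exp_le_exp.2 h3
    linarith
  have h1 : 1 ≤ Real.exp (ε * ((3 + |y|) + (3 + |y|) ^ 2)) := Real.one_le_exp (by positivity)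
  have a3 := mul_le_mul a1 a2 (by linarith) (by positivity)
  have a4 := mul_le_mul_of_nonneg_left a3 (Real.exp_pos (-(y ^ 2 / 4))).le
  refine a4.trans (le_of_eq ?_)
  have e : Real.exp (-(y ^ 2 / 4)) * (16 * Real.exp (y ^ 2 / 16) * Real.exp (2 + y ^ 2 / 16)) =
      16 * (Real.exp (-(y ^ 2 / 4)) * Real.exp (y ^ 2 / 16) * Real.exp (2 + y ^ 2 / 16)) := by ring
  have e2 : Real.exp (-(y ^ 2 / 4)) * Real.exp (y ^ 2 / 16) * Real.exp (2 + y ^ 2 / 16) =
      Real.exp 2 * Real.exp (-(1 / 8) * y ^ 2) := by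
    rw [← Real.exp_add, ← Real.exp_add, ← Real.exp_add]
    congr 1; ring
  rw [e, e2]; ring

theorem er_int (ε : ℝ) (h : 0 ≤ ε) (h2 : ε ≤ 1 / 32) : Integrable (er ε) := by
  refine Integrable.mono' ((integrable_exp_neg_mul_sq (b := 1 / 8) (by norm_num)).const_mul
    (16 * Real.exp 2)) (er_cont ε).aestronglyMeasurable (Eventually.of_forall fun y => ?_)
  rw [Real.norm_of_nonneg (er_nn ε y h)]
  exact er_bd ε y h h2

theorem er_tendsto (e : ℕ → ℝ) (he : Tendsto e atTop (𝓝 0)) (he0 : ∀ k, 0 ≤ e k) :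
    Tendsto (fun k => ∫ y, er (e k) y) atTop (𝓝 0) := by
  have h1 : Tendsto (fun k => ∫ y, er (e k) y) atTop (𝓝 (∫ _ : ℝ, (0 : ℝ))) := by
    refine tendsto_integral_filter_of_dominated_convergence
      (fun y => 16 * Real.exp 2 * Real.exp (-(1 / 8) * y ^ 2)) ?_ ?_ ?_ ?_
    · exact Eventually.of_forall fun k => (er_cont (e k)).aestronglyMeasurable
    · filter_upwards [he.eventually (ge_mem_nhds (show (0 : ℝ) < 1 / 32 by norm_num))] with k hk
      refine Eventually.of_forall fun y => ?_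
      rw [Real.norm_of_nonneg (er_nn _ y (he0 k))]
      exact er_bd _ y (he0 k) hk
    · exact (integrable_exp_neg_mul_sq (b := 1 / 8) (by norm_num)).const_mul (16 * Real.exp 2)
    · refine Eventually.of_forall fun y => ?_
      have hc : Continuous fun ε : ℝ => er ε y := by unfold er; fun_prop
      have h2 := (hc.tendsto 0).comp he
      have h3 : er 0 y = 0 := by unfold er; simp
      rw [h3] at h2
      exact h2
  rwa [integral_zero] at h1

theorem t_CONV : Pool.Agent.Q260.KK.S_CONV := by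
  intro f _ x e he he0 hloc hint
  rw [Metric.tendstoUniformlyOn_iff]
  intro ε hε
  have hs : (0 : ℝ) < Real.sqrt (4 * Real.pi) := Real.sqrt_pos.2 (by positivity)
  set c : ℝ := 1 / Real.sqrt (4 * Real.pi) with hc
  have hc0 : 0 < c := by positivity
  have h1 := (er_tendsto e he he0).const_mul c
  rw [mul_zero] at h1
  filter_upwards [h1.eventually (gt_mem_nhds hε),
    he.eventually (ge_mem_nhds (show (0 : ℝ) < 1 / 32 by norm_num))] with k hk hk2
  intro z hz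
  have hz3 : ‖z‖ ≤ 3 := by simpa using hz
  have hfk := (hloc k 0).1
  obtain ⟨q1, q2⟩ := quad z
  have e1 : (((1 / Real.sqrt (4 * Real.pi) : ℝ) : ℂ) *
      ∫ y : ℝ, ((Real.exp (-(y ^ 2 / 4)) : ℝ) : ℂ) * f (x k + z + y * I)) / f (x k) =
      (c : ℂ) * ∫ y : ℝ, ((Real.exp (-(y ^ 2 / 4)) : ℝ) : ℂ) * (f (x k + (z + y * I)) / f (x k)) := by
    rw [← hc, mul_div_assoc, ← integral_div]
    congr 2
    funext y
    rw [← add_assoc]
    ring
  have hi1 : Integrable fun y : ℝ =>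
      ((Real.exp (-(y ^ 2 / 4)) : ℝ) : ℂ) * (f (x k + (z + y * I)) / f (x k)) := by
    have := (hint (x k + z)).div_const (f (x k))
    refine this.congr (Eventually.of_forall fun y => ?_)
    simp only
    rw [← add_assoc]
    ring
  rw [e1, ← q2, ← hc, dist_eq_norm, ← mul_sub, ← integral_sub q1 hi1, norm_mul,
    Complex.norm_of_nonneg hc0.le]
  refine lt_of_le_of_lt ?_ hk
  apply mul_le_mul_of_nonneg_left _ hc0.le
  refine norm_integral_le_of_norm_le (er_int (e k) (he0 k) hk2) (Eventually.of_forall fun y => ?_)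
  rw [← mul_sub, norm_mul, Complex.norm_of_nonneg (Real.exp_pos _).le]
  unfold er
  apply mul_le_mul_of_nonneg_left _ (Real.exp_pos _).le
  rw [norm_sub_rev]
  refine (hloc k (z + y * I)).2.trans ?_
  have hn : ‖z + y * I‖ ≤ 3 + |y| := by
    refine (norm_add_le _ _).trans ?_
    rw [norm_mul, Complex.norm_I, mul_one, Complex.norm_real, Real.norm_eq_abs]
    linarith
  have hn0 := norm_nonneg (z + y * I)
  have hn2 : ‖z + y * I‖ ^ 2 ≤ (3 + |y|) ^ 2 := pow_le_pow_left₀ hn0 hn 2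
  have h3 : Real.exp (e k * (‖z + y * I‖ + ‖z + y * I‖ ^ 2)) ≤
      Real.exp (e k * ((3 + |y|) + (3 + |y|) ^ 2)) :=
    Real.exp_le_exp.2 (mul_le_mul_of_nonneg_left (by linarith) (he0 k))
  have h4 : 1 ≤ Real.exp (e k * (‖z + y * I‖ + ‖z + y * I‖ ^ 2)) :=
    Real.one_le_exp (mul_nonneg (he0 k) (by positivity))
  apply mul_le_mul (by linarith) (by linarith) (by linarith) (by positivity)

end Pool.Agent.Q63.KK
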